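import Pool.Agent.Run7.h775.LV.Classical

/-!
# PI rings which do not coincide with their derived Lie ring

Lvov asks whether there is a nonzero PI ring `R` with `[R, R] = R`.  We show that there is none
among the rings with a Capelli identity (in any characteristic), and none among the rings which
are built by finitely many extensions from rings with a Capelli identity and rings which are
solvable as Lie rings.
-/

namespace Pool.Agent.Results.MP_8daa5c_al.CapelliDerived

universe u v w

/-- `[R, R] = R`: every element is a sum of commutators. -/
def Derived (R : Type u) [NonUnitalRing R] : Prop :=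
  AddSubgroup.closure {z : R | ∃ a b : R, z = a * b - b * a} = ⊤

/-- The Capelli identity of rank `m`: for all `x 0, ..., x (m - 1)` and `y 0, y 1, ...` in `R`, the
sum over all permutations `σ` of
`sign σ * x (σ 0) * y 0 * x (σ 1) * y 1 * ... * y (m - 2) * x (σ (m - 1))` vanishes
(the products are computed in `ℤ ⊕ R`). -/
def Capelli (R : Type u) [NonUnitalRing R] (m : ℕ) : Prop :=
  ∀ (x : Fin m → R) (y : ℕ → R), ∑ σ : Equiv.Perm (Fin m), (Equiv.Perm.sign σ : ℤ) •
    (List.ofFn fun i : Fin m => ((x (σ i) : R) : Unitization ℤ R) *
      (if (i : ℕ) + 1 < m then ((y i : R) : Unitization ℤ R) else 1)).prod = 0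

/-- The derived series of the Lie ring of `R`. -/
def derivedSeries (R : Type u) [NonUnitalRing R] : ℕ → AddSubgroup R
  | 0 => ⊤
  | k + 1 => AddSubgroup.closure
      {z : R | ∃ a ∈ derivedSeries R k, ∃ b ∈ derivedSeries R k, z = a * b - b * a}

/-- The smallest class of rings which contains the rings with a Capelli identity and the rings
which are solvable as Lie rings, and which is closed under extensions: if `K` is an ideal of `R`
and `S = R / K`, and if `K` and `S` are in the class, then so is `R`. -/
inductive Tame : ∀ (R : Type u) [NonUnitalRing R], Prop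
  | capelli (R : Type u) [NonUnitalRing R] (m : ℕ) (h : Capelli R m) : Tame R
  | solvable (R : Type u) [NonUnitalRing R] (k : ℕ) (h : derivedSeries R k = ⊥) : Tame R
  | ext (K R S : Type u) [NonUnitalRing K] [NonUnitalRing R] [NonUnitalRing S]
      (g : K →ₙ+* R) (f : R →ₙ+* S) (hg : Function.Injective g) (hf : Function.Surjective f)
      (hex : ∀ x : R, f x = 0 ↔ ∃ y, g y = x) (hK : Tame K) (hS : Tame S) : Tame R

theorem Derived.map {R S : Type u} [NonUnitalRing R] [NonUnitalRing S] (f : R →ₙ+* S)
    (hf : Function.Surjective f) (h : Derived R) : Derived S := by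
  unfold Derived at *
  rw [eq_top_iff]
  rintro s -
  obtain ⟨x, rfl⟩ := hf s
  have hx : x ∈ AddSubgroup.closure {z : R | ∃ a b : R, z = a * b - b * a} := by
    rw [h]; trivial
  induction hx using AddSubgroup.closure_induction with
  | mem z hz =>
    obtain ⟨a, b, rfl⟩ := hz
    exact AddSubgroup.subset_closure ⟨f a, f b, by simp⟩
  | zero => rw [map_zero]; exact AddSubgroup.zero_mem _
  | add y z _ _ h1 h2 => rw [map_add]; exact AddSubgroup.add_mem _ h1 h2
  | neg y _ h1 => rw [map_neg]; exact AddSubgroup.neg_mem _ h1

theorem Derived.series {R : Type u} [NonUnitalRing R] (h : Derived R) (k : ℕ) :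
    derivedSeries R k = ⊤ := by
  induction k with
  | zero => rfl
  | succ k ih =>
    rw [derivedSeries, ih]
    have e : {z : R | ∃ a ∈ (⊤ : AddSubgroup R), ∃ b ∈ (⊤ : AddSubgroup R), z = a * b - b * a} =
        {z : R | ∃ a b : R, z = a * b - b * a} := by
      ext z
      simp
    rw [e]
    exact h

theorem zero_of_tame {R : Type u} [NonUnitalRing R] (h : Tame R) :
    Derived R → ∀ x : R, x = 0 := by
  induction h with
  | capelli R m h => exact fun hP => Pool.Agent.Run7.h775.LV.zero_of_classical m h hP
  | solvable R k h =>
    intro hP x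
    have h1 : (⊤ : AddSubgroup R) = ⊥ := by rw [← hP.series k, h]
    have h2 : x ∈ (⊤ : AddSubgroup R) := trivial
    rw [h1] at h2
    exact AddSubgroup.mem_bot.1 h2
  | ext K R S g f hg hf hex _ _ ihK ihS =>
    intro hP x
    have hS := ihS (hP.map f hf)
    have hsur : Function.Surjective g := fun y => (hex y).1 (hS (f y))
    let e : K ≃+* R := { Equiv.ofBijective g ⟨hg, hsur⟩ with
      map_mul' := map_mul g
      map_add' := map_add g }
    let e' : R →ₙ+* K := (e.symm : R →ₙ+* K)
    have hK := ihK (hP.map e' e.symm.surjective)
    obtain ⟨y, rfl⟩ := hsur x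
    rw [hK y, map_zero]

/-- (1) A ring `R` with a Capelli identity and `[R, R] = R` is zero; more generally this holds for
all rings which are built by finitely many extensions from rings with a Capelli identity and rings
which are solvable as Lie rings.
(2) A homomorphic image `R` of a subring (with or without unit) of a ring `B` which is a finitely
generated module over a commutative ring `C` acting centrally (for instance of a matrix ring over
`C`) is zero if `[R, R] = R`. -/
theorem result :
    (∀ (R : Type u) [NonUnitalRing R], Tame R → Derived R → ∀ x : R, x = 0) ∧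
    (∀ (C : Type v) (B : Type w) (R : Type u) [CommRing C] [Ring B] [Algebra C B]
      [Module.Finite C B] [NonUnitalRing R] (S : NonUnitalSubring B) (f : S →ₙ+* R),
      Function.Surjective f → Derived R → ∀ x : R, x = 0) := by
  refine ⟨fun R _ h hP => zero_of_tame h hP, ?_⟩
  intro C B R _ _ _ _ _ S f hf hP
  obtain ⟨N, hN⟩ := Pool.Agent.Run7.h775.LV.capelli_sub (C := C) S
  exact Pool.Agent.Run7.h775.LV.zero_of_capelli (N + 1)
    (Pool.Agent.Run7.h775.LV.capelli_image f hf hN) hP

end Pool.Agent.Results.MP_8daa5c_al.CapelliDerived
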